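import Pool.Agent.ENC.All

/-!
MP_1e9518_pr, Q1: the product condition does not imply entropy cutoff for vertex-transitive graphs.

The graphs. A walker moves on the hypercube `(ZMod 2)^n`; at every vertex of the hypercube there is
a lamp with values in a group `Λ` of exponent two. Common moves: the walker flips a coordinate and
every lamp gets an independent increment, uniform on a set `S1 ⊆ Λ` if the lamp is on the walker's side
of the middle layer (as seen from the walker), uniform on a set `S2` if it is on the other side,
uniform on `Λ` if it is on the middle layer; an auxiliary coordinate in `ZMod f` is refreshed. Rare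
moves: the walker jumps to the antipode and all lamps except the two at the endpoints of the jump are
refreshed. The sets `S1`, `S2` are such that a lamp with few increments of the first kind and few
increments of the second kind lies in a set of measure `exp(-K)`, where `K` is comparable with
`log |Λ|`, while many increments of one kind make it uniform.
-/

namespace Pool.Agent.Results.MP_1e9518_pr.NoEntropyCutoff

open Filter Topology Pool.Agent.LazyWalk Pool.Agent.ENC

/-- **The product condition does not imply entropy cutoff.** There is a sequence of finite connected
vertex-transitive graphs with `|V_n| → ∞`, satisfying the product condition `T_mix / T_rel → ∞`,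
without entropy cutoff. In fact entropy cutoff fails at every scale: for every `δ > 0` there is
`ε ∈ (0, δ)` with `T_ent(ε) / T_ent(δ) ≥ 23/21` for infinitely many `n`. -/
theorem result :
    ∃ (V : ℕ → Type) (_ : ∀ n, Fintype (V n)) (G : ∀ n, SimpleGraph (V n)),
      (∀ n, (G n).Connected) ∧ (∀ n, VertexTransitive (G n)) ∧
      Tendsto (fun n => (Fintype.card (V n) : ℝ)) atTop atTop ∧
      ProductCondition G ∧
      ¬ EntropyCutoff G ∧
      (∀ δ : ℝ, 0 < δ → ∃ ε : ℝ, 0 < ε ∧ ε < δ ∧
        ∃ᶠ n in atTop, (23 / 21 : ℝ) ≤ (Tent (G n) ε : ℝ) / (Tent (G n) δ : ℝ)) :=
  main_of all

end Pool.Agent.Results.MP_1e9518_pr.NoEntropyCutoff
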