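import Pool.Agent.Lib_helper97.SepBounds

/-!
MP_1e9518_pr, Q2: the product condition does not imply separation cutoff for vertex-transitive
graphs. The graphs are Cayley graphs of `(ZMod 2)^N × ZMod m` with `N = 32^k`, `m = 3k`: each
coordinate flip is accompanied by an arbitrary shift of the `ZMod m` part, and there is one extra
generator, the antipodal map of the hypercube.
-/

namespace Pool.Agent.Results.MP_1e9518_pr.SepNoCutoff

open Filter Topology Pool.Agent.LazyWalk

/-- Half the dimension of the hypercube. -/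
def hdim (n : ℕ) : ℕ := 16 * 32 ^ (n + 7)

lemma hdim_eq (n : ℕ) : 2 * hdim n = 32 ^ (n + 8) := by
  unfold hdim
  rw [show n + 8 = (n + 7) + 1 by ring, pow_succ 32 (n + 7)]
  ring

lemma hdim_pos (n : ℕ) : 1 ≤ hdim n := M_pos (by omega : 8 ≤ n + 8) (hdim_eq n)

instance (n : ℕ) : NeZero (3 * (n + 8)) := ⟨by omega⟩

/-- The vertex set. -/
abbrev Vert (n : ℕ) : Type := (Fin (2 * hdim n) → ZMod 2) × ZMod (3 * (n + 8))

/-- The graph. -/
def Gr (n : ℕ) : SimpleGraph (Vert n) :=
  cube (2 * hdim n) (ZMod (3 * (n + 8))) (by have := hdim_pos n; omega)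

lemma card_J (n : ℕ) : Fintype.card (ZMod (3 * (n + 8))) = 3 * (n + 8) := ZMod.card _

lemma reg (n : ℕ) : Reg (Gr n) (cdeg (2 * hdim n) (3 * (n + 8))) := by
  have h := cube_reg (J := ZMod (3 * (n + 8))) (N := 2 * hdim n) (by have := hdim_pos n; omega)
  rw [card_J] at h
  exact h

lemma transitive (n : ℕ) : VertexTransitive (Gr n) :=
  cay_transitive (cgen (2 * hdim n) (ZMod (3 * (n + 8)))) cgen_neg
    (cgen_ne_zero (by have := hdim_pos n; omega))

lemma expConv (n : ℕ) : ExpConv (Gr n) (((2 * hdim n : ℕ) : ℝ) / (((2 * hdim n : ℕ) : ℝ) + 1)) := by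
  have h4 : 4 ≤ 2 * hdim n := by
    have := M_ge (by omega : 8 ≤ n + 8) (hdim_eq n)
    omega
  exact cube_expConv (J := ZMod (3 * (n + 8))) h4

lemma sep_le (n : ℕ) : sepDist (Gr n) (2 * (2 * hdim n) * (n + 8)) ≤ 39 / 40 := by
  have h1 := sepDist_cube_le (J := ZMod (3 * (n + 8))) (hdim_pos n) (2 * (2 * hdim n) * (n + 8))
  rw [card_J] at h1
  exact h1.trans (sep_upper (by omega) (hdim_eq n))

lemma lt_sep (n : ℕ) : 1 / 40 < sepDist (Gr n) (3 * (2 * hdim n) * (n + 8)) := by
  obtain ⟨l, hl, h⟩ := sep_lower (by omega : 8 ≤ n + 8) (hdim_eq n)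
  have h1 := le_sepDist_cube (J := ZMod (3 * (n + 8))) (hdim_pos n) hl (3 * (2 * hdim n) * (n + 8))
  rw [card_J] at h1
  exact h.trans_le h1

lemma ratio (n : ℕ) : (3 / 2 : ℝ) ≤ (Tsep (Gr n) (1 / 40) : ℝ) / (Tsep (Gr n) (39 / 40) : ℝ) := by
  have h1 := lt_Tsep (reg n) (expConv n) (by norm_num) (lt_sep n)
  have h2 : Tsep (Gr n) (39 / 40) ≤ 2 * (2 * hdim n) * (n + 8) := Tsep_le (sep_le n)
  have h3 : 0 < Tsep (Gr n) (39 / 40) := by
    apply lt_Tsep (reg n) (expConv n) (by norm_num)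
    have h4 := le_sepDist (G := Gr n) 0 0 (1, 0)
    rw [stepProb_zero, if_neg] at h4
    · linarith
    · intro h5
      have h6 := congrFun (congrArg Prod.fst h5) ⟨0, by have := hdim_pos n; omega⟩
      simp at h6
  have h3' : (0 : ℝ) < Tsep (Gr n) (39 / 40) := by exact_mod_cast h3
  rw [le_div_iff₀ h3']
  have h1' : (3 * (2 * hdim n) * (n + 8) : ℝ) ≤ Tsep (Gr n) (1 / 40) := by exact_mod_cast h1.le
  have h2' : (Tsep (Gr n) (39 / 40) : ℝ) ≤ 2 * (2 * hdim n) * (n + 8) := by exact_mod_cast h2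
  linarith

lemma tmix_div_trel (n : ℕ) : (n : ℝ) / 10 ≤ (Tmix (Gr n) (1 / 4) : ℝ) / Trel (Gr n) := by
  have h1 := lt_Tmix (reg n) (expConv n) (lt_sep n)
  have h2 := (expConv n).one_sub_le
  obtain ⟨N, hN⟩ : ∃ N : ℝ, N = ((2 * hdim n : ℕ) : ℝ) := ⟨_, rfl⟩
  rw [← hN] at h2
  have hN1 : (1000 : ℝ) ≤ N := by
    rw [hN]
    have := M_ge (by omega : 8 ≤ n + 8) (hdim_eq n)
    have h3 : 1000 ≤ 2 * hdim n := by omega
    exact_mod_cast h3
  have h3 : 1 - N / (N + 1) = 1 / (N + 1) := by field_simp; ring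
  rw [h3] at h2
  unfold Trel
  rw [div_div_eq_mul_div, div_one]
  have h1' : 3 * N * ((n : ℝ) + 8) ≤ 14 * (Tmix (Gr n) (1 / 4) : ℝ) := by
    rw [hN]
    exact_mod_cast h1.le
  have h4 : (Tmix (Gr n) (1 / 4) : ℝ) * (1 / (N + 1)) ≤
      (Tmix (Gr n) (1 / 4) : ℝ) * (1 - lambdaTwo (Gr n)) :=
    mul_le_mul_of_nonneg_left h2 (by positivity)
  refine le_trans ?_ h4
  rw [mul_one_div, le_div_iff₀ (by positivity)]
  have hn : (0 : ℝ) ≤ n := by positivity
  nlinarith

lemma degree_le (n : ℕ) (x : Vert n) :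
    ((((Gr n).neighborSet x).ncard : ℕ) : ℝ) ≤ 2 * Real.log (Fintype.card (Vert n)) *
      Real.log (Real.log (Fintype.card (Vert n))) := by
  classical
  have hdeg : ((Gr n).neighborSet x).ncard = cdeg (2 * hdim n) (3 * (n + 8)) := by
    rw [← (reg n).2 x, ← Set.ncard_coe_finset]
    congr 1
    ext y
    simp
  rw [hdeg]
  have hcard : (Fintype.card (Vert n) : ℝ) = 2 ^ (2 * hdim n) * ((3 * (n + 8) : ℕ) : ℝ) := by
    have := card_cube (N := 2 * hdim n) (J := ZMod (3 * (n + 8)))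
    rw [card_J] at this
    exact this
  obtain ⟨N, hN⟩ : ∃ N : ℝ, N = 2 * (hdim n : ℝ) := ⟨_, rfl⟩
  obtain ⟨k, hk⟩ : ∃ k : ℝ, k = (n : ℝ) + 8 := ⟨_, rfl⟩
  have hk8 : 8 ≤ k := by
    rw [hk]
    have : (0 : ℝ) ≤ n := by positivity
    linarith
  have hN32 : N = (32 : ℝ) ^ (n + 8) := by
    rw [hN]
    exact_mod_cast hdim_eq n
  have hNge : 8000 ≤ N := by
    rw [hN]
    have := M_ge (by omega : 8 ≤ n + 8) (hdim_eq n)
    have h3 : 8000 ≤ 2 * hdim n := by omega
    exact_mod_cast h3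
  have hlog2 := Real.log_two_gt_d9
  -- lower bound for log |V|
  have h1 : 69 / 100 * N ≤ Real.log (Fintype.card (Vert n)) := by
    rw [hcard, Real.log_mul (by positivity) (by positivity), Real.log_pow]
    have h2 : 0 ≤ Real.log ((3 * (n + 8) : ℕ) : ℝ) := Real.log_natCast_nonneg _
    have h3 : ((2 * hdim n : ℕ) : ℝ) = N := by rw [hN]; push_cast; ring
    rw [h3]
    nlinarith
  -- lower bound for log log |V|
  have h2 : 33 / 10 * k ≤ Real.log (Real.log (Fintype.card (Vert n))) := by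
    have h3 : Real.log (69 / 100 * N) ≤ Real.log (Real.log (Fintype.card (Vert n))) :=
      Real.log_le_log (by linarith) h1
    refine le_trans ?_ h3
    rw [Real.log_mul (by norm_num) (by linarith), hN32, Real.log_pow]
    have h4 : Real.log 32 = 5 * Real.log 2 := by
      rw [show (32 : ℝ) = 2 ^ 5 by norm_num, Real.log_pow]
      norm_num
    rw [h4]
    have h5 : (-1 : ℝ) ≤ Real.log (69 / 100) := by
      rw [Real.le_log_iff_exp_le (by norm_num), Real.exp_neg, inv_le_comm₀ (Real.exp_pos _) (by norm_num)]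
      have := Real.exp_one_gt_d9
      linarith
    have h6 : ((n + 8 : ℕ) : ℝ) = k := by rw [hk]; push_cast; ring
    rw [h6]
    nlinarith
  have h3 : (cdeg (2 * hdim n) (3 * (n + 8)) : ℝ) = 3 * N * k + 1 := by
    unfold cdeg
    rw [hN, hk]
    push_cast
    ring
  rw [h3]
  have h4 : 0 ≤ Real.log (Real.log (Fintype.card (Vert n))) := by linarith
  have h5 : (69 / 100 * N) * (33 / 10 * k) ≤ Real.log (Fintype.card (Vert n)) *
      Real.log (Real.log (Fintype.card (Vert n))) :=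
    mul_le_mul h1 h2 (by positivity) (by linarith)
  nlinarith

/-- **The product condition does not imply separation cutoff.** There is a sequence of finite
connected vertex-transitive graphs with `|V_n| → ∞`, satisfying the product condition
`T_mix / T_rel → ∞`, without separation cutoff; in fact `T_sep(1/40) / T_sep(39/40) ≥ 3/2` for every
`n`, and the degrees are at most `2 log |V_n| log log |V_n|`. -/
theorem result :
    ∃ (V : ℕ → Type) (_ : ∀ n, Fintype (V n)) (G : ∀ n, SimpleGraph (V n)),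
      (∀ n, (G n).Connected) ∧ (∀ n, VertexTransitive (G n)) ∧
      Tendsto (fun n => (Fintype.card (V n) : ℝ)) atTop atTop ∧
      ProductCondition G ∧
      ¬ SeparationCutoff G ∧
      (∀ n, (3 / 2 : ℝ) ≤ (Tsep (G n) (1 / 40) : ℝ) / (Tsep (G n) (39 / 40) : ℝ)) ∧
      (∀ n, ∀ x : V n, (((G n).neighborSet x).ncard : ℝ) ≤
        2 * Real.log (Fintype.card (V n)) * Real.log (Real.log (Fintype.card (V n)))) := by
  refine ⟨Vert, fun n => inferInstance, Gr, fun n => (expConv n).connected,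
    transitive, ?_, ?_, ?_, ratio, degree_le⟩
  · -- card
    have h : ∀ n : ℕ, (n : ℝ) ≤ (Fintype.card (Vert n) : ℝ) := by
      intro n
      have := card_cube (N := 2 * hdim n) (J := ZMod (3 * (n + 8)))
      rw [card_J] at this
      rw [this]
      have h1 : (1 : ℝ) ≤ 2 ^ (2 * hdim n) := one_le_pow₀ (by norm_num)
      have h2 : (n : ℝ) ≤ ((3 * (n + 8) : ℕ) : ℝ) := by
        exact_mod_cast (by omega : n ≤ 3 * (n + 8))
      have h3 : (0 : ℝ) ≤ n := by positivity
      nlinarith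
    exact tendsto_atTop_mono h tendsto_natCast_atTop_atTop
  · -- product condition
    unfold ProductCondition
    exact tendsto_atTop_mono tmix_div_trel
      (tendsto_natCast_atTop_atTop.atTop_div_const (by norm_num))
  · -- no cutoff
    intro h
    have h1 := h (1 / 40) (by norm_num) (by norm_num)
    rw [show (1 : ℝ) - 1 / 40 = 39 / 40 by norm_num] at h1
    have h2 := ge_of_tendsto' h1 ratio
    norm_num at h2

end Pool.Agent.Results.MP_1e9518_pr.SepNoCutoff
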